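import Pool.Agent.Helper99.PG.Goals

/-!
PROJECT C2, packet PG-CYC: a cycle of the successor map.
-/

set_option autoImplicit false

namespace Pool.Agent.Helper59.PG

open Pool.Agent.Helper99.PG

/-- a non accessible point of a map to options on a finite type leads to a periodic point -/
theorem exists_periodic {P : Type} [Finite P] (s : P → Option P) (p : P)
    (hp : ¬ Acc (fun q p => s p = some q) p) :
    ∃ (g : P → P) (x : P) (n : ℕ), 0 < n ∧ g^[n] x = x ∧ ∀ k, s (g^[k] x) = some (g^[k + 1] x) := by
  classical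
  set g : P → P := fun p => (s p).getD p with hg
  have hstep : ∀ p, ¬ Acc (fun q p => s p = some q) p →
      s p = some (g p) ∧ ¬ Acc (fun q p => s p = some q) (g p) := by
    intro p hp
    have h1 : ∃ q, s p = some q ∧ ¬ Acc (fun q p => s p = some q) q := by
      by_contra hcon
      push Not at hcon
      exact hp (Acc.intro p fun q hq => hcon q hq)
    obtain ⟨q, hq, hq'⟩ := h1
    have h2 : g p = q := by
      rw [hg]
      simp only
      rw [hq]
      rfl
    rw [h2]
    exact ⟨hq, hq'⟩
  have hit : ∀ k, ¬ Acc (fun q p => s p = some q) (g^[k] p) := by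
    intro k
    induction k with
    | zero => exact hp
    | succ k ih =>
      rw [Function.iterate_succ_apply']
      exact (hstep _ ih).2
  have hs : ∀ k, s (g^[k] p) = some (g^[k + 1] p) := by
    intro k
    rw [Function.iterate_succ_apply']
    exact (hstep _ (hit k)).1
  obtain ⟨i, j, hij, he⟩ := Finite.exists_ne_map_eq_of_infinite (fun k : ℕ => g^[k] p)
  have key : ∀ i j : ℕ, i < j → g^[i] p = g^[j] p →
      ∃ (g : P → P) (x : P) (n : ℕ), 0 < n ∧ g^[n] x = x ∧
        ∀ k, s (g^[k] x) = some (g^[k + 1] x) := by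
    intro i j hij he
    refine ⟨g, g^[i] p, j - i, by omega, ?_, ?_⟩
    · rw [← Function.iterate_add_apply, show j - i + i = j by omega]
      exact he.symm
    · intro k
      rw [← Function.iterate_add_apply, ← Function.iterate_add_apply,
        show k + 1 + i = k + i + 1 by omega]
      exact hs (k + i)
  rcases lt_or_gt_of_ne hij with h | h
  · exact key i j h he
  · exact key j i h he.symm

/-- packet CYC -/
theorem cycle : GoalCycle := by
  intro V _ _ up dn W A hR
  unfold Reach at hR
  push Not at hR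
  obtain ⟨p, hp⟩ := hR
  obtain ⟨g, x, n, hn, hx, hs⟩ := exists_periodic (suc up dn W A) p hp
  classical
  refine ⟨(Finset.range n).image fun k => g^[k] x, ?_, ?_, ?_, ?_, ?_⟩
  · exact ⟨g^[0] x, Finset.mem_image.2 ⟨0, Finset.mem_range.2 hn, rfl⟩⟩
  · intro p hp
    obtain ⟨k, hk, rfl⟩ := Finset.mem_image.1 hp
    rw [Finset.mem_range] at hk
    refine ⟨g^[k + 1] x, ?_, hs k⟩
    rcases Nat.lt_or_ge (k + 1) n with h | h
    · exact Finset.mem_image.2 ⟨k + 1, Finset.mem_range.2 h, rfl⟩
    · have e : k + 1 = n := by omega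
      rw [e, hx]
      exact Finset.mem_image.2 ⟨0, Finset.mem_range.2 hn, rfl⟩
  · intro q hq
    obtain ⟨k, hk, rfl⟩ := Finset.mem_image.1 hq
    rw [Finset.mem_range] at hk
    rcases Nat.eq_zero_or_pos k with h | h
    · refine ⟨g^[n - 1] x, Finset.mem_image.2 ⟨n - 1, Finset.mem_range.2 (by omega), rfl⟩, ?_⟩
      rw [hs, show n - 1 + 1 = n by omega, hx, h]
      rfl
    · refine ⟨g^[k - 1] x, Finset.mem_image.2 ⟨k - 1, Finset.mem_range.2 (by omega), rfl⟩, ?_⟩
      rw [hs, show k - 1 + 1 = k by omega]
  · intro p hp p' hp' he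
    obtain ⟨k, -, rfl⟩ := Finset.mem_image.1 hp
    obtain ⟨l, -, rfl⟩ := Finset.mem_image.1 hp'
    rw [hs, hs] at he
    have h1 := Option.some.inj he
    have h2 : ∀ k, g^[n - 1] (g^[k + 1] x) = g^[k] x := by
      intro k
      rw [← Function.iterate_add_apply, show n - 1 + (k + 1) = k + n by omega,
        Function.iterate_add_apply, hx]
    rw [← h2 k, ← h2 l, h1]
  · intro f hf
    have h1 : ∀ k, f (g^[k % n] x) = f (g^[k] x) := by
      intro k
      have h2 : ∀ m, g^[k % n + n * m] x = g^[k % n] x := by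
        intro m
        rw [Function.iterate_add_apply, Function.iterate_mul]
        congr 1
        exact Function.iterate_fixed hx m
      rw [← h2 (k / n), Nat.mod_add_div]
    have h3 : ∀ k, f (g^[k] x) = f x := by
      intro k
      induction k with
      | zero => rfl
      | succ k ih =>
        rw [← ih, ← h1 k]
        have h4 : g^[k % n] x ∈ (Finset.range n).image fun k => g^[k] x :=
          Finset.mem_image.2 ⟨k % n, Finset.mem_range.2 (Nat.mod_lt _ hn), rfl⟩
        rw [← hf _ h4 _ (hs (k % n)), ← h1 (k + 1), ← h1 (k % n + 1), Nat.mod_add_mod]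
    intro p hp q hq
    obtain ⟨k, -, rfl⟩ := Finset.mem_image.1 hp
    obtain ⟨l, -, rfl⟩ := Finset.mem_image.1 hq
    rw [h3, h3]

end Pool.Agent.Helper59.PG
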